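import Pool.Agent.Mg.F42957e.G6d339b

set_option autoImplicit false

namespace Pool.Agent.Results.MP_42957e_ag.NoTotalPencil

open Pool.Agent.MP_42957e_ag

/-- A nonsingular dividing real plane curve of degree `m = 7` without total pencil of degree at
most `m - 2 = 5`. -/
theorem result : ∃ F : MvPolynomial (Fin 3) ℝ, F.IsHomogeneous 7 ∧ Nonsingular F ∧ Dividing F ∧
    ∀ d ≤ 5, ∀ G H : MvPolynomial (Fin 3) ℝ, G.IsHomogeneous d → H.IsHomogeneous d →
      ¬ IsTotal F G H :=
  main

end Pool.Agent.Results.MP_42957e_ag.NoTotalPencil
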